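import Mathlib

set_option autoImplicit false

/-!
Elementary continuum theory: components of compact sets, boundary bumping, subcontinua with
interior of indecomposable continua.
-/

open Set Topology Filter

namespace Pool.Agent.Y525.Punct

universe u

variable {T : Type u} [TopologicalSpace T]

/-- A subcontinuum of a topological space: a nonempty compact connected subset. -/
def IsSubcontinuum (K : Set T) : Prop := IsCompact K ∧ IsConnected K

/-- An indecomposable continuum: a continuum which is not the union of two proper subcontinua. -/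
def IsIndecomposable (Z : Set T) : Prop :=
  IsSubcontinuum Z ∧ ∀ A B : Set T, IsSubcontinuum A → IsSubcontinuum B → A ∪ B = Z → A = Z ∨ B = Z

lemma isClosed_cc {F : Set T} (hF : IsClosed F) (x : T) : IsClosed (connectedComponentIn F x) := by
  by_cases hx : x ∈ F
  · have h1 : closure (connectedComponentIn F x) ⊆ connectedComponentIn F x := by
      apply IsPreconnected.subset_connectedComponentIn isPreconnected_connectedComponentIn.closure
        (subset_closure (mem_connectedComponentIn hx))
      exact closure_minimal (connectedComponentIn_subset F x) hF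
    exact isClosed_of_closure_subset h1
  · rw [connectedComponentIn_eq_empty hx]; exact isClosed_empty

/-- In a compact set a component can be separated from a closed set disjoint from it. -/
lemma exists_sep [T2Space T] {F : Set T} (hF : IsCompact F) {x : T} (hx : x ∈ F) {L : Set T}
    (hL : IsClosed L) (hd : Disjoint (connectedComponentIn F x) L) :
    ∃ C D : Set T, IsClosed C ∧ IsClosed D ∧ Disjoint C D ∧ C ∪ D = F ∧
      connectedComponentIn F x ⊆ C ∧ L ∩ F ⊆ D := by
  have : CompactSpace F := isCompact_iff_compactSpace.mp hF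
  let x' : F := ⟨x, hx⟩
  have h1 : connectedComponent x' = ⋂ s : { s : Set F // IsClopen s ∧ x' ∈ s }, (s : Set F) :=
    connectedComponent_eq_iInter_isClopen x'
  have hL' : IsCompact ((Subtype.val : F → T) ⁻¹' L) :=
    (hL.preimage continuous_subtype_val).isCompact
  have h2 : ((Subtype.val : F → T) ⁻¹' L) ∩
      (⋂ s : { s : Set F // IsClopen s ∧ x' ∈ s }, (s : Set F)) = ∅ := by
    rw [← h1]
    rw [connectedComponentIn_eq_image hx] at hd
    ext y
    simp only [mem_inter_iff, mem_preimage, mem_empty_iff_false, iff_false, not_and]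
    intro hy hy'
    exact (Set.disjoint_left.mp hd) (mem_image_of_mem _ hy') hy
  obtain ⟨u, hu⟩ := hL'.elim_finite_subfamily_closed
    (fun s : { s : Set F // IsClopen s ∧ x' ∈ s } => (s : Set F)) (fun s => s.2.1.1) h2
  set C' : Set F := ⋂ i ∈ u, (i : Set F) with hC'
  have hclop : IsClopen C' := isClopen_biInter_finset (fun i _ => i.2.1)
  refine ⟨Subtype.val '' C', Subtype.val '' C'ᶜ, ?_, ?_, ?_, ?_, ?_, ?_⟩
  · exact (hclop.1.isCompact.image continuous_subtype_val).isClosed
  · exact (hclop.compl.1.isCompact.image continuous_subtype_val).isClosed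
  · rw [Set.disjoint_image_iff Subtype.val_injective]
    exact disjoint_compl_right
  · rw [← Set.image_union, Set.union_compl_self, Set.image_univ, Subtype.range_coe]
  · rw [connectedComponentIn_eq_image hx]
    apply Set.image_mono
    rw [h1]
    intro y hy
    rw [mem_iInter] at hy
    rw [hC', mem_iInter₂]
    intro i _
    exact hy i
  · rintro y ⟨hy, hyF⟩
    refine ⟨⟨y, hyF⟩, ?_, rfl⟩
    intro hyC
    have : (⟨y, hyF⟩ : F) ∈ ((Subtype.val : F → T) ⁻¹' L) ∩ C' := ⟨hy, hyC⟩
    rw [hu] at this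
    exact this

/-- A preconnected set inside a union of two disjoint closed sets, meeting the first one. -/
lemma subset_of_preconnected {J C D : Set T} (hJ : IsPreconnected J) (hC : IsClosed C)
    (hD : IsClosed D) (hdis : Disjoint C D) (hsub : J ⊆ C ∪ D) (hne : (J ∩ C).Nonempty) : J ⊆ C := by
  intro y hy
  by_contra hyC
  have hyD : y ∈ D := (hsub hy).resolve_left hyC
  obtain ⟨z, -, hz⟩ := isPreconnected_closed_iff.mp hJ C D hC hD hsub hne ⟨y, hy, hyD⟩
  exact (Set.disjoint_left.mp hdis) hz.1 hz.2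

/-- Upper semicontinuity of components. -/
lemma eventually_cc_subset [T2Space T] {W : Set T} (hW : IsCompact W) {x : T}
    (hx : x ∈ interior W) {O : Set T} (hO : IsOpen O) (hsub : connectedComponentIn W x ⊆ O) :
    ∀ᶠ v in 𝓝 x, v ∈ W ∧ connectedComponentIn W v ⊆ O := by
  have hxW : x ∈ W := interior_subset hx
  obtain ⟨C, D, hC, hD, hdis, hun, h1, h2⟩ := exists_sep hW hxW hO.isClosed_compl
    (Set.disjoint_left.mpr fun y hy hy' => hy' (hsub hy))
  have hxC : x ∈ C := h1 (mem_connectedComponentIn hxW)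
  have hxD : x ∈ Dᶜ := fun h => (Set.disjoint_left.mp hdis) hxC h
  filter_upwards [isOpen_interior.mem_nhds hx, hD.isOpen_compl.mem_nhds hxD] with v hv hvD
  have hvW : v ∈ W := interior_subset hv
  have hvC : v ∈ C := by
    rw [← hun] at hvW
    exact hvW.resolve_right hvD
  refine ⟨hvW, ?_⟩
  have h3 : connectedComponentIn W v ⊆ C := by
    apply subset_of_preconnected isPreconnected_connectedComponentIn hC hD hdis
    · rw [hun]; exact connectedComponentIn_subset W v
    · exact ⟨v, mem_connectedComponentIn hvW, hvC⟩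
  intro y hy
  by_contra hyO
  have hyW : y ∈ W := connectedComponentIn_subset W v hy
  exact (Set.disjoint_left.mp hdis) (h3 hy) (h2 ⟨hyO, hyW⟩)

/-- If `Z` is connected and is the union of the closed sets `K`, `A`, `B`, where `K` is nonempty
and connected and `A`, `B` are disjoint, then `K ∪ A` is connected. -/
lemma connected_union {Z K A B : Set T} (hZ : IsPreconnected Z) (hK : IsClosed K)
    (hKc : IsConnected K) (hA : IsClosed A) (hB : IsClosed B) (hAB : Disjoint A B)
    (hun : K ∪ A ∪ B = Z) : IsConnected (K ∪ A) := by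
  refine ⟨hKc.1.mono subset_union_left, ?_⟩
  rw [isPreconnected_closed_iff]
  intro t t' ht ht' hsub hne hne'
  by_contra hemp
  -- one of the two parts contains `K`
  have key : ∀ t t' : Set T, IsClosed t → IsClosed t' → K ∪ A ⊆ t ∪ t' → K ⊆ t →
      ((K ∪ A) ∩ t').Nonempty → ¬ ((K ∪ A) ∩ (t ∩ t')).Nonempty → False := by
    intro t t' ht ht' hsub hKt hne' hemp
    have hd : ∀ y, y ∈ K ∪ A → y ∈ t → y ∈ t' → False := fun y h1 h2 h3 => hemp ⟨y, h1, h2, h3⟩
    -- `D' = A ∩ t'` and `C' = (K ∪ A) ∩ t ∪ B`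
    have h1 := isPreconnected_closed_iff.mp hZ ((K ∪ A) ∩ t ∪ B) (A ∩ t')
      (((hK.union hA).inter ht).union hB) (hA.inter ht') ?_ ?_ ?_
    · obtain ⟨y, -, hy1, hy2⟩ := h1
      rcases hy1 with hy1 | hy1
      · exact hd y hy1.1 hy1.2 hy2.2
      · exact (Set.disjoint_left.mp hAB) hy2.1 hy1
    · rw [← hun]
      intro y hy
      rcases hy with hy | hy
      · rcases hsub hy with h | h
        · exact Or.inl (Or.inl ⟨hy, h⟩)
        · rcases hy with hy | hy
          · exact Or.inl (Or.inl ⟨Or.inl hy, hKt hy⟩)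
          · exact Or.inr ⟨hy, h⟩
      · exact Or.inl (Or.inr hy)
    · obtain ⟨k, hk⟩ := hKc.1
      exact ⟨k, hun ▸ Or.inl (Or.inl hk), Or.inl ⟨Or.inl hk, hKt hk⟩⟩
    · obtain ⟨y, hy, hy'⟩ := hne'
      rcases hy with hy | hy
      · exact (hd y (Or.inl hy) (hKt hy) hy').elim
      · exact ⟨y, hun ▸ Or.inl (Or.inr hy), hy, hy'⟩
  have hKsub : K ⊆ t ∪ t' := subset_union_left.trans hsub
  by_cases hKt : (K ∩ t).Nonempty
  · by_cases hKt' : (K ∩ t').Nonempty
    · obtain ⟨y, hy, hy'⟩ := isPreconnected_closed_iff.mp hKc.2 t t' ht ht' hKsub hKt hKt'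
      exact hemp ⟨y, Or.inl hy, hy'⟩
    · have : K ⊆ t := fun y hy => (hKsub hy).resolve_right fun h => hKt' ⟨y, hy, h⟩
      exact key t t' ht ht' hsub this hne' hemp
  · have : K ⊆ t' := fun y hy => (hKsub hy).resolve_left fun h => hKt ⟨y, hy, h⟩
    apply key t' t ht' ht (by rw [union_comm t' t]; exact hsub) this hne
    rw [inter_comm t' t]
    exact hemp

/-- A subcontinuum with nonempty interior of an indecomposable continuum is the whole continuum. -/
lemma eq_of_interior [T2Space T] {Z K O : Set T} (hZ : IsIndecomposable Z) (hK : IsSubcontinuum K)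
    (hKZ : K ⊆ Z) (hO : IsOpen O) (hne : (O ∩ Z).Nonempty) (hOK : O ∩ Z ⊆ K) : K = Z := by
  by_contra hneq
  obtain ⟨⟨hZc, hZconn⟩, hind⟩ := hZ
  have hKcl : IsClosed K := hK.1.isClosed
  have hZcl : IsClosed Z := hZc.isClosed
  obtain ⟨w, hwZ, hwK⟩ : ∃ w ∈ Z, w ∉ K := by
    by_contra h
    push Not at h
    exact hneq (Subset.antisymm hKZ h)
  have hcl : closure (Z \ K) ⊆ Z := closure_minimal sdiff_subset hZcl
  have hun : K ∪ closure (Z \ K) = Z := by
    apply Subset.antisymm (union_subset hKZ hcl)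
    intro y hy
    by_cases hyK : y ∈ K
    · exact Or.inl hyK
    · exact Or.inr (subset_closure ⟨hy, hyK⟩)
  have hO' : closure (Z \ K) ⊆ Oᶜ := by
    apply closure_minimal _ hO.isClosed_compl
    intro y hy hyO
    exact hy.2 (hOK ⟨hyO, hy.1⟩)
  by_cases hc : IsPreconnected (closure (Z \ K))
  · have h2 : IsSubcontinuum (closure (Z \ K)) :=
      ⟨hZc.of_isClosed_subset isClosed_closure hcl, ⟨⟨w, subset_closure ⟨hwZ, hwK⟩⟩, hc⟩⟩
    rcases hind K _ hK h2 hun with h | h
    · exact hneq h
    · obtain ⟨y, hy, hyZ⟩ := hne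
      rw [← h] at hyZ
      exact hO' hyZ hy
  · rw [isPreconnected_closed_iff] at hc
    push Not at hc
    obtain ⟨t, t', ht, ht', hsub, hne1, hne2, hemp⟩ := hc
    have hA : IsClosed (closure (Z \ K) ∩ t) := isClosed_closure.inter ht
    have hB : IsClosed (closure (Z \ K) ∩ t') := isClosed_closure.inter ht'
    have hAB : Disjoint (closure (Z \ K) ∩ t) (closure (Z \ K) ∩ t') := by
      rw [Set.disjoint_left]
      rintro y ⟨h1, h2⟩ ⟨-, h3⟩
      have : y ∈ closure (Z \ K) ∩ (t ∩ t') := ⟨h1, h2, h3⟩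
      rw [hemp] at this
      exact this
    have hABun : closure (Z \ K) ∩ t ∪ closure (Z \ K) ∩ t' = closure (Z \ K) := by
      rw [← inter_union_distrib_left]
      exact inter_eq_left.mpr hsub
    have e1 : K ∪ closure (Z \ K) ∩ t ∪ closure (Z \ K) ∩ t' = Z := by
      rw [union_assoc, hABun, hun]
    have e2 : K ∪ closure (Z \ K) ∩ t' ∪ closure (Z \ K) ∩ t = Z := by
      rw [union_assoc, union_comm (closure (Z \ K) ∩ t'), hABun, hun]
    have c1 := connected_union hZconn.2 hKcl hK.2 hA hB hAB e1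
    have c2 := connected_union hZconn.2 hKcl hK.2 hB hA hAB.symm e2
    have s1 : IsSubcontinuum (K ∪ closure (Z \ K) ∩ t) :=
      ⟨hZc.of_isClosed_subset (hKcl.union hA) (fun y hy => e1 ▸ Or.inl hy), c1⟩
    have s2 : IsSubcontinuum (K ∪ closure (Z \ K) ∩ t') :=
      ⟨hZc.of_isClosed_subset (hKcl.union hB) (fun y hy => e2 ▸ Or.inl hy), c2⟩
    have key : ∀ t t' : Set T, IsClosed t → closure (Z \ K) ⊆ t ∪ t' →
        closure (Z \ K) ∩ (t ∩ t') = ∅ → (closure (Z \ K) ∩ t').Nonempty →
        K ∪ closure (Z \ K) ∩ t = Z → False := by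
      intro t t' ht hsub hemp hne h
      obtain ⟨y, hy, hy'⟩ := hne
      have hyt : y ∈ tᶜ := by
        intro hyt
        have : y ∈ closure (Z \ K) ∩ (t ∩ t') := ⟨hy, hyt, hy'⟩
        rw [hemp] at this
        exact this
      obtain ⟨z, hz1, hz2⟩ := mem_closure_iff.mp hy tᶜ ht.isOpen_compl hyt
      have hz3 : z ∈ K ∪ closure (Z \ K) ∩ t := by rw [h]; exact hz2.1
      rcases hz3 with h3 | h3
      · exact hz2.2 h3
      · exact hz1 h3.2
    rcases hind _ _ s1 s2 (by rw [← union_union_distrib_left, hABun, hun]) with h | h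
    · exact key t t' ht hsub hemp hne2 h
    · exact key t' t ht' (by rw [union_comm]; exact hsub) (by rw [inter_comm t' t]; exact hemp)
        hne1 h

end Pool.Agent.Y525.Punct
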