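import Mathlib
import Pool.Agent.Y525.Punct.Cont

set_option autoImplicit false

/-!
A metric continuum which is not connected im kleinen at `p`: the set `F` and the open set `V ⊆ F`.
-/

open Set Topology Filter Metric

namespace Pool.Agent.Y525.Punct

universe u

variable {X : Type u}

/-- `X` is connected im kleinen at `p`. -/
def IsCIK [TopologicalSpace X] (p : X) : Prop :=
  ∀ U : Set X, IsOpen U → p ∈ U → ∃ C ⊆ U, IsConnected C ∧ p ∈ interior C

variable [MetricSpace X]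

/-- Boundary bumping. -/
lemma bump [CompactSpace X] [PreconnectedSpace X] {p : X} {ρ : ℝ} (hW : closedBall p ρ ≠ univ)
    {v : X} (hv : v ∈ closedBall p ρ) :
    ∃ s ∈ connectedComponentIn (closedBall p ρ) v, dist s p = ρ := by
  by_contra hcon
  push Not at hcon
  obtain ⟨C, D, hC, hD, hdis, hun, h1, h2⟩ := exists_sep
    (isClosed_closedBall.isCompact : IsCompact (closedBall p ρ)) hv
    (isClosed_sphere : IsClosed (sphere p ρ)) (Set.disjoint_left.mpr fun y hy hy' =>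
      hcon y hy (mem_sphere.mp hy'))
  have hCo : C = ball p ρ ∩ Dᶜ := by
    ext y
    constructor
    · intro hy
      have hyW : y ∈ closedBall p ρ := hun ▸ Or.inl hy
      have hyD : y ∉ D := fun h => (Set.disjoint_left.mp hdis) hy h
      refine ⟨?_, hyD⟩
      rw [mem_ball]
      refine lt_of_le_of_ne (mem_closedBall.mp hyW) fun h => hyD (h2 ⟨mem_sphere.mpr h, hyW⟩)
    · rintro ⟨hy, hyD⟩
      have hyW : y ∈ C ∪ D := hun ▸ ball_subset_closedBall hy
      exact hyW.resolve_right hyD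
  have hclop : IsClopen C := ⟨hC, hCo ▸ isOpen_ball.inter hD.isOpen_compl⟩
  rcases isClopen_iff.mp hclop with h | h
  · have := h1 (mem_connectedComponentIn hv)
    rw [h] at this
    exact this
  · apply hW
    apply eq_univ_of_univ_subset
    rw [← h, ← hun]
    exact subset_union_left

/-- On a connected set on which `g` avoids `[1/3, 2/3]`, `g` stays below `1/3`. -/
lemma side {J : Set X} (hJ : IsPreconnected J) {g : X → ℝ} (hg : ContinuousOn g J)
    (hs : ∀ y ∈ J, g y < 1 / 3 ∨ 2 / 3 < g y) {x : X} (hx : x ∈ J) (hgx : g x < 1 / 3) :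
    ∀ y ∈ J, g y < 1 / 3 := by
  intro y hy
  rcases hs y hy with h | h
  · exact h
  · exfalso
    obtain ⟨z, hz, hz'⟩ := hJ.intermediate_value hx hy hg
      (show (1 / 2 : ℝ) ∈ Icc (g x) (g y) from ⟨by linarith, by linarith⟩)
    rcases hs z hz with h' | h' <;> linarith

lemma closed_aux {A : ℕ → Set X} {J : Set X} (hA : ∀ k, IsClosed (A k)) (hJ : IsClosed J)
    (h : ∀ ε > 0, ∀ᶠ k in atTop, ∀ y ∈ A k, ∃ z ∈ J, dist y z < ε) :
    IsClosed ((⋃ k, A k) ∪ J) := by
  rw [← isOpen_compl_iff, isOpen_iff_mem_nhds]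
  intro y hy
  rw [mem_compl_iff, mem_union, not_or] at hy
  obtain ⟨d, hd, hball⟩ := Metric.isOpen_iff.mp hJ.isOpen_compl y hy.2
  obtain ⟨N, hN⟩ := eventually_atTop.mp (h (d / 2) (by positivity))
  have hfin : IsClosed (⋃ k ∈ Finset.range N, A k) := isClosed_biUnion_finset fun k _ => hA k
  have hy' : y ∈ (⋃ k ∈ Finset.range N, A k)ᶜ := by
    intro h'
    rw [mem_iUnion₂] at h'
    obtain ⟨k, -, hk⟩ := h'
    exact hy.1 (mem_iUnion.mpr ⟨k, hk⟩)
  filter_upwards [hfin.isOpen_compl.mem_nhds hy', ball_mem_nhds y (half_pos hd)] with w hw hwb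
  rw [mem_ball] at hwb
  intro hwu
  rcases hwu with hwu | hwu
  · obtain ⟨k, hk⟩ := mem_iUnion.mp hwu
    by_cases hkN : k < N
    · exact hw (mem_iUnion₂.mpr ⟨k, Finset.mem_range.mpr hkN, hk⟩)
    · obtain ⟨z, hz, hwz⟩ := hN k (not_lt.mp hkN) w hk
      refine hball (mem_ball.mpr ?_ : z ∈ ball y d) hz
      calc dist z y ≤ dist z w + dist w y := dist_triangle _ _ _
        _ < d / 2 + d / 2 := by rw [dist_comm z w]; exact add_lt_add hwz hwb
        _ = d := by ring
  · refine hball (mem_ball.mpr ?_ : w ∈ ball y d) hwu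
    linarith

/-- The main argument: if `V k` meets `{g < 1/3}` arbitrarily close to `p`, then `g (a k) < 1/3`
for all large `k`. -/
lemma one_side [CompactSpace X] [PreconnectedSpace X] {p : X} {ρ : ℝ} (hρ : 0 < ρ)
    (hW : closedBall p ρ ≠ univ) {a : ℕ → X} {A V : ℕ → Set X} {J F : Set X} {δ : ℕ → ℝ}
    (hδ : Tendsto δ atTop (𝓝 0)) (hJ : IsClosed J) (hJF : ∀ y ∈ J, y ≠ p → y ∈ F)
    (hAcl : ∀ k, IsClosed (A k)) (hAp : ∀ k, p ∉ A k) (hVA : ∀ k, V k ⊆ A k)
    (hAF : ∀ k, A k ⊆ F)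
    (hcomp : ∀ k, ∀ v ∈ A k, connectedComponentIn (closedBall p ρ) v ⊆ A k)
    (haV : ∀ k, a k ∈ V k)
    (hV : ∀ᶠ k in atTop, ∀ v ∈ V k, v ∈ closedBall p ρ ∧
      ∀ y ∈ connectedComponentIn (closedBall p ρ) v,
        ∃ x ∈ connectedComponentIn (closedBall p ρ) (a k), dist y x < δ k)
    (hconv : ∀ ε > 0, ∀ᶠ k in atTop,
      (∀ x ∈ connectedComponentIn (closedBall p ρ) (a k), ∃ y ∈ J, dist x y < ε) ∧
      (∀ y ∈ J, ∃ x ∈ connectedComponentIn (closedBall p ρ) (a k), dist x y < ε))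
    {g : X → ℝ} (hg : ContinuousOn g {p}ᶜ) {ε : ℝ} (hε : ρ < ε)
    (hsep : ∀ y ∈ F, dist y p < ε → g y < 1 / 3 ∨ 2 / 3 < g y)
    (hfreq : ∀ ε' > 0, ∃ k, ∃ y ∈ V k, dist y p < ε' ∧ g y < 1 / 3) :
    ∀ᶠ k in atTop, g (a k) < 1 / 3 := by
  set cc : X → Set X := fun v => connectedComponentIn (closedBall p ρ) v with hcc
  -- `g` keeps its side on components
  have hside : ∀ k, ∀ v ∈ A k, v ∈ closedBall p ρ → ∀ x ∈ cc v, g x < 1 / 3 →
      ∀ y ∈ cc v, g y < 1 / 3 := by
    intro k v hv hvW x hx hgx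
    have hsub : cc v ⊆ {p}ᶜ := by
      intro y hy hyp
      rw [mem_singleton_iff] at hyp
      exact hAp k (hyp ▸ hcomp k v hv hy)
    refine side isPreconnected_connectedComponentIn (hg.mono hsub) ?_ hx hgx
    intro y hy
    refine hsep y (hAF k (hcomp k v hv hy)) (lt_of_le_of_lt ?_ hε)
    exact mem_closedBall.mp (connectedComponentIn_subset _ _ hy)
  have h1 : ∃ᶠ k in atTop, ∃ y ∈ V k, g y < 1 / 3 := by
    rw [frequently_atTop]
    intro K
    have hfin : IsClosed (⋃ k ∈ Finset.range K, A k) := isClosed_biUnion_finset fun k _ => hAcl k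
    have hp : p ∈ (⋃ k ∈ Finset.range K, A k)ᶜ := by
      intro h'
      rw [mem_iUnion₂] at h'
      obtain ⟨k, -, hk⟩ := h'
      exact hAp k hk
    obtain ⟨d, hd, hball⟩ := Metric.isOpen_iff.mp hfin.isOpen_compl p hp
    obtain ⟨k, y, hy, hyd, hgy⟩ := hfreq d hd
    refine ⟨k, ?_, y, hy, hgy⟩
    by_contra hk
    exact hball (mem_ball.mpr hyd) (mem_iUnion₂.mpr ⟨k, Finset.mem_range.mpr (not_le.mp hk),
      hVA k hy⟩)
  have h2 : ∃ᶠ k in atTop, ∃ s, dist s p = ρ ∧ g s < 1 / 3 ∧ ∃ x ∈ cc (a k), dist s x < δ k := by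
    refine (h1.and_eventually hV).mono ?_
    rintro k ⟨⟨y, hy, hgy⟩, hk⟩
    obtain ⟨hyW, hyc⟩ := hk y hy
    obtain ⟨s, hs, hsp⟩ := bump hW hyW
    exact ⟨s, hsp, hside k y (hVA k hy) hyW y (mem_connectedComponentIn hyW) hgy s hs, hyc s hs⟩
  obtain ⟨φ, hφ, hP⟩ := extraction_of_frequently_atTop h2
  choose s hsp hgs x hx hsx using hP
  obtain ⟨s0, ψ, hψ, hlim⟩ := CompactSpace.tendsto_subseq s
  have hs0p : dist s0 p = ρ := by
    have h3 : Tendsto (fun n => dist (s (ψ n)) p) atTop (𝓝 (dist s0 p)) :=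
      hlim.dist tendsto_const_nhds
    have h4 : (fun n => dist (s (ψ n)) p) = fun _ => ρ := by
      funext n; exact hsp _
    rw [h4] at h3
    exact (tendsto_nhds_unique tendsto_const_nhds h3).symm
  have hs0ne : s0 ≠ p := by
    intro h
    rw [h, dist_self] at hs0p
    exact hρ.ne hs0p
  have hφψ : Tendsto (fun n => φ (ψ n)) atTop atTop := hφ.tendsto_atTop.comp hψ.tendsto_atTop
  have hs0J : s0 ∈ J := by
    rw [← hJ.closure_eq, Metric.mem_closure_iff]
    intro η hη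
    have e1 := hφψ.eventually (hconv (η / 3) (by positivity))
    have e2 : ∀ᶠ n in atTop, δ (φ (ψ n)) < η / 3 :=
      hφψ.eventually (hδ.eventually_lt_const (by positivity))
    have e3 : ∀ᶠ n in atTop, dist (s (ψ n)) s0 < η / 3 :=
      (tendsto_iff_dist_tendsto_zero.mp hlim).eventually_lt_const (by positivity)
    obtain ⟨n, h1, h2, h3⟩ := (e1.and (e2.and e3)).exists
    obtain ⟨y, hy, hxy⟩ := h1.1 _ (hx (ψ n))
    refine ⟨y, hy, ?_⟩
    calc dist s0 y ≤ dist s0 (s (ψ n)) + dist (s (ψ n)) (x (ψ n)) + dist (x (ψ n)) y :=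
          dist_triangle4 _ _ _ _
      _ < η / 3 + η / 3 + η / 3 := by
          rw [dist_comm s0]
          exact add_lt_add (add_lt_add h3 ((hsx (ψ n)).trans h2)) hxy
      _ = η := by ring
  have hcont : ContinuousAt g s0 := hg.continuousAt (isOpen_compl_singleton.mem_nhds hs0ne)
  have hgs0 : g s0 < 1 / 3 := by
    have h3 : g s0 ≤ 1 / 3 := le_of_tendsto (hcont.tendsto.comp hlim)
      (Eventually.of_forall fun n => (hgs (ψ n)).le)
    rcases hsep s0 (hJF s0 hs0J hs0ne) (hs0p ▸ hε) with h | h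
    · exact h
    · linarith
  obtain ⟨η, hη, hball⟩ := Metric.mem_nhds_iff.mp (hcont.eventually_lt_const hgs0)
  filter_upwards [hconv η hη, hV] with k hk hVk
  obtain ⟨z, hz, hzs⟩ := hk.2 s0 hs0J
  have haW := (hVk (a k) (haV k)).1
  exact hside k (a k) (hVA k (haV k)) haW z hz (hball (mem_ball.mpr hzs)) (a k)
    (mem_connectedComponentIn haW)

end Pool.Agent.Y525.Punct
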