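import Mathlib
import Pool.Agent.Y525.Punct.Metric

set_option autoImplicit false

/-!
A metric continuum which is not connected im kleinen at `p`: construction of the set `F`.
-/

open Set Topology Filter Metric

namespace Pool.Agent.Y525.Punct

universe u

variable {X : Type u} [MetricSpace X]

lemma cc_symm {F : Set X} {x y : X} (h : y ∈ connectedComponentIn F x) (hx : x ∈ F) :
    x ∈ connectedComponentIn F y := by
  rw [← connectedComponentIn_eq h]
  exact mem_connectedComponentIn hx

/-- The two sequences. -/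
lemma exists_seqs [CompactSpace X] {p : X} {r : ℝ} (hr : 0 < r)
    (hQ : p ∉ interior (connectedComponentIn (closedBall p r) p)) :
    ∃ a u : ℕ → X, Tendsto a atTop (𝓝 p) ∧ Tendsto u atTop (𝓝 p) ∧
      (∀ k, a k ∈ ball p r) ∧ (∀ k, a k ∉ connectedComponentIn (closedBall p r) p) ∧
      (∀ k, u k ∈ ball p r) ∧ (∀ k, u k ∉ connectedComponentIn (closedBall p r) p) ∧
      ∀ j k, u j ∉ connectedComponentIn (closedBall p r) (a k) := by
  set W := closedBall p r with hW
  have hpW : p ∈ W := mem_closedBall_self hr.le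
  have hWcl : IsClosed W := isClosed_closedBall
  have hneg : ∀ x, x ∉ connectedComponentIn W p → p ∉ connectedComponentIn W x := by
    intro x hx hp
    by_cases hxW : x ∈ W
    · exact hx (cc_symm hp hxW)
    · rw [connectedComponentIn_eq_empty hxW] at hp
      exact hp
  obtain ⟨x, hx, hxx⟩ := exists_seq_of_forall_finset_exists
    (fun x : X => x ∈ ball p r ∧ x ∉ connectedComponentIn W p)
    (fun x y : X => y ∉ connectedComponentIn W x ∧ dist y p < dist x p / 2) (by
      intro s hs
      have hN : ∀ᶠ y in 𝓝 p, y ∈ ball p r ∧ ∀ x ∈ s, y ∉ connectedComponentIn W x ∧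
          dist y p < dist x p / 2 := by
        have h0 : ∀ᶠ y in 𝓝 p, y ∈ ball p r := ball_mem_nhds p hr
        refine h0.and ((s.eventually_all).mpr ?_)
        intro x hx
        obtain ⟨-, hxQ⟩ := hs x hx
        have h1 : ∀ᶠ y in 𝓝 p, y ∈ (connectedComponentIn W x)ᶜ :=
          (isClosed_cc hWcl x).isOpen_compl.mem_nhds (hneg x hxQ)
        have hxp : 0 < dist x p := by
          rw [dist_pos]
          rintro rfl
          exact hxQ (mem_connectedComponentIn hpW)
        exact h1.and (ball_mem_nhds p (half_pos hxp))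
      by_contra hcon
      push Not at hcon
      apply hQ
      rw [mem_interior_iff_mem_nhds]
      filter_upwards [hN] with y hy
      by_contra hyQ
      obtain ⟨z, hz, hz'⟩ := hcon y ⟨hy.1, hyQ⟩
      obtain ⟨h1, h2⟩ := hy.2 z hz
      exact absurd h2 (not_lt.mpr (hz' h1)))
  have hdist : ∀ n, dist (x n) p ≤ r / 2 ^ n := by
    intro n
    induction n with
    | zero => simpa using (mem_ball.mp (hx 0).1).le
    | succ n ih =>
      have := (hxx n (n + 1) (Nat.lt_succ_self n)).2
      calc dist (x (n + 1)) p ≤ dist (x n) p / 2 := this.le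
        _ ≤ r / 2 ^ n / 2 := by gcongr
        _ = r / 2 ^ (n + 1) := by rw [pow_succ]; ring
  have hlim : Tendsto x atTop (𝓝 p) := by
    rw [tendsto_iff_dist_tendsto_zero]
    have h1 : Tendsto (fun n : ℕ => r / 2 ^ n) atTop (𝓝 0) := by
      have := (tendsto_pow_atTop_nhds_zero_of_lt_one (r := (1 / 2 : ℝ)) (by norm_num)
        (by norm_num)).const_mul r
      rw [mul_zero] at this
      refine this.congr fun n => ?_
      rw [one_div, inv_pow]; rfl
    exact squeeze_zero (fun n => dist_nonneg) hdist h1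
  have h2 : Tendsto (fun n : ℕ => 2 * n) atTop atTop :=
    tendsto_atTop_mono (fun n => (by omega : n ≤ 2 * n)) tendsto_id
  have h3 : Tendsto (fun n : ℕ => 2 * n + 1) atTop atTop :=
    tendsto_atTop_mono (fun n => (by omega : n ≤ 2 * n + 1)) tendsto_id
  refine ⟨fun n => x (2 * n), fun n => x (2 * n + 1), hlim.comp h2, hlim.comp h3,
    fun k => (hx _).1, fun k => (hx _).2, fun k => (hx _).1, fun k => (hx _).2, ?_⟩
  intro j k hjk
  rcases lt_or_ge (2 * k) (2 * j + 1) with h | h
  · exact (hxx _ _ h).1 hjk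
  · have h' : 2 * j + 1 < 2 * k := by omega
    exact (hxx _ _ h').1 (cc_symm hjk (ball_subset_closedBall (hx _).1))

/-- The radii. -/
noncomputable def rad (r : ℝ) (i : ℕ) : ℝ := r / (i + 1)

lemma rad_pos {r : ℝ} (hr : 0 < r) (i : ℕ) : 0 < rad r i := by
  unfold rad; positivity

lemma rad_le {r : ℝ} (hr : 0 < r) (i : ℕ) : rad r i ≤ r := by
  unfold rad
  apply div_le_self hr.le
  have : (0 : ℝ) ≤ i := Nat.cast_nonneg i
  linarith

lemma tendsto_rad (r : ℝ) : Tendsto (rad r) atTop (𝓝 0) :=
  tendsto_const_div_atTop_nhds_zero_nat r |>.comp (tendsto_add_atTop_nat 1) |>.congr fun n => by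
    simp [rad]

/-- Passing to a subsequence the components converge at all levels. -/
lemma exists_limits [CompactSpace X] {p : X} {r : ℝ} (hr : 0 < r) {a : ℕ → X}
    (ha : Tendsto a atTop (𝓝 p)) :
    ∃ (φ : ℕ → ℕ) (J : ℕ → Set X), StrictMono φ ∧ (∀ i, IsClosed (J i)) ∧
      ∀ i, ∀ ε > 0, ∀ᶠ k in atTop,
      (∀ x ∈ connectedComponentIn (closedBall p (rad r i)) (a (φ k)), ∃ y ∈ J i, dist x y < ε) ∧
      (∀ y ∈ J i, ∃ x ∈ connectedComponentIn (closedBall p (rad r i)) (a (φ k)), dist x y < ε) := by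
  classical
  let Φ : X → ℕ → TopologicalSpace.NonemptyCompacts X := fun x i =>
    if h : x ∈ closedBall p (rad r i) then
      ⟨⟨connectedComponentIn (closedBall p (rad r i)) x,
        (isClosed_cc isClosed_closedBall x).isCompact⟩, ⟨x, mem_connectedComponentIn h⟩⟩
    else ⟨⟨{x}, isCompact_singleton⟩, ⟨x, rfl⟩⟩
  obtain ⟨L, φ, hφ, hL⟩ := CompactSpace.tendsto_subseq (fun k => Φ (a k))
  refine ⟨φ, fun i => (L i : Set X), hφ, fun i => (L i).isCompact.isClosed, ?_⟩
  intro i ε hε
  have h1 : Tendsto (fun k => Φ (a (φ k)) i) atTop (𝓝 (L i)) := (tendsto_pi_nhds.mp hL) i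
  have h2 : ∀ᶠ k in atTop, dist (Φ (a (φ k)) i) (L i) < ε :=
    (tendsto_iff_dist_tendsto_zero.mp h1).eventually_lt_const hε
  have h3 : ∀ᶠ k in atTop, a (φ k) ∈ closedBall p (rad r i) :=
    (ha.comp hφ.tendsto_atTop) (closedBall_mem_nhds p (rad_pos hr i))
  filter_upwards [h2, h3] with k hk hk3
  have e : ((Φ (a (φ k)) i : TopologicalSpace.NonemptyCompacts X) : Set X) =
      connectedComponentIn (closedBall p (rad r i)) (a (φ k)) := by
    simp only [Φ, dif_pos hk3]
    rfl
  rw [NonemptyCompacts.dist_eq, e] at hk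
  have hfin : hausdorffEDist (connectedComponentIn (closedBall p (rad r i)) (a (φ k)))
      (L i : Set X) ≠ ⊤ := by
    apply hausdorffEDist_ne_top_of_nonempty_of_bounded ⟨_, mem_connectedComponentIn hk3⟩
      (L i).nonempty
    · exact isBounded_of_compactSpace
    · exact isBounded_of_compactSpace
  constructor
  · intro x hx
    exact exists_dist_lt_of_hausdorffDist_lt hx hk hfin
  · intro y hy
    exact exists_dist_lt_of_hausdorffDist_lt' hy hk hfin

end Pool.Agent.Y525.Punct
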