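import Mathlib
import Pool.Agent.Y525.Punct.Build

set_option autoImplicit false

/-!
A metric continuum which is not connected im kleinen at `p`: construction of the set `F`.
-/

open Set Topology Filter Metric

namespace Pool.Agent.Y525.Punct

universe u

variable {X : Type u} [MetricSpace X]

theorem metric_construction [CompactSpace X] [ConnectedSpace X] {p : X} (h : ¬ IsCIK p) :
    ∃ (F V : Set X) (a u : ℕ → X), p ∉ F ∧ IsClosed (insert p F) ∧ IsOpen V ∧ V ⊆ F ∧
      (∀ k, a k ∈ V) ∧ Tendsto a atTop (𝓝 p) ∧ (∀ k, u k ∉ F) ∧ (∀ k, u k ≠ p) ∧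
      Tendsto u atTop (𝓝 p) ∧
      ∀ g : X → ℝ, ContinuousOn g {p}ᶜ → ∀ ε > 0,
        (∀ y ∈ F, dist y p < ε → g y < 1 / 3 ∨ 2 / 3 < g y) →
        (∀ ε' > 0, ∃ y ∈ V, dist y p < ε' ∧ g y < 1 / 3) →
        (∀ ε' > 0, ∃ y ∈ V, dist y p < ε' ∧ 2 / 3 < g y) → False := by
  classical
  unfold IsCIK at h
  push Not at h
  obtain ⟨U, hU, hpU, hnot⟩ := h
  obtain ⟨r₀, hr₀, hball⟩ := Metric.isOpen_iff.mp hU p hpU
  obtain ⟨r, hr, hrU⟩ : ∃ r > 0, closedBall p r ⊆ U :=
    ⟨r₀ / 2, half_pos hr₀, (closedBall_subset_ball (half_lt_self hr₀)).trans hball⟩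
  set W := closedBall p r with hWdef
  have hpW : p ∈ W := mem_closedBall_self hr.le
  have hWcl : IsClosed W := isClosed_closedBall
  have hWc : IsCompact W := hWcl.isCompact
  have hQ : p ∉ interior (connectedComponentIn W p) := by
    apply hnot _ ((connectedComponentIn_subset W p).trans hrU)
    exact isConnected_connectedComponentIn_iff.mpr hpW
  have hne : ∀ i, closedBall p (rad r i) ≠ univ := by
    intro i hi
    have hW' : W = univ := by
      apply eq_univ_of_univ_subset
      rw [← hi]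
      exact closedBall_subset_closedBall (rad_le hr i)
    apply hQ
    rw [hW', connectedComponentIn_univ, PreconnectedSpace.connectedComponent_eq_univ, interior_univ]
    exact mem_univ p
  obtain ⟨a₀, u, ha₀, hu, haW₀, haQ₀, huW, huQ, hua₀⟩ := exists_seqs hr hQ
  obtain ⟨φ, J, hφ, hJcl, hlim⟩ := exists_limits hr ha₀
  set a : ℕ → X := fun k => a₀ (φ k) with hadef
  have ha : Tendsto a atTop (𝓝 p) := ha₀.comp hφ.tendsto_atTop
  have haW : ∀ k, a k ∈ ball p r := fun k => haW₀ _
  have haQ : ∀ k, a k ∉ connectedComponentIn W p := fun k => haQ₀ _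
  have hua : ∀ j k, u j ∉ connectedComponentIn W (a k) := fun j k => hua₀ j _
  have hap : ∀ k, a k ≠ p := by
    intro k hk
    apply haQ k
    rw [hk]
    exact mem_connectedComponentIn hpW
  have hup : ∀ k, u k ≠ p := by
    intro k hk
    apply huQ k
    rw [hk]
    exact mem_connectedComponentIn hpW
  have hr0 : rad r 0 = r := by simp [rad]
  have hlim0 : ∀ ε > 0, ∀ᶠ k in atTop,
      (∀ x ∈ connectedComponentIn W (a k), ∃ y ∈ J 0, dist x y < ε) ∧
      (∀ y ∈ J 0, ∃ x ∈ connectedComponentIn W (a k), dist x y < ε) := by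
    intro ε hε
    have := hlim 0 ε hε
    rw [hr0] at this
    exact this
  set δ : ℕ → ℝ := fun k => 1 / ((k : ℝ) + 1) with hδdef
  have hδpos : ∀ k, 0 < δ k := fun k => by simp only [hδdef]; positivity
  have hδ : Tendsto δ atTop (𝓝 0) := tendsto_one_div_add_atTop_nhds_zero_nat
  -- the clopen sets `A k`
  have hsepk : ∀ k, ∃ C D : Set X, IsClosed C ∧ IsClosed D ∧ Disjoint C D ∧ C ∪ D = W ∧
      connectedComponentIn W (a k) ⊆ C ∧
      ((thickening (δ k) (connectedComponentIn W (a k)))ᶜ ∪ insert p (range u)) ∩ W ⊆ D := by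
    intro k
    apply exists_sep hWc (ball_subset_closedBall (haW k))
    · exact isOpen_thickening.isClosed_compl.union hu.isCompact_insert_range.isClosed
    · rw [Set.disjoint_left]
      intro y hy hy'
      rcases hy' with hy' | hy'
      · exact hy' (self_subset_thickening (hδpos k) _ hy)
      · rcases hy' with rfl | ⟨j, rfl⟩
        · exact haQ k (cc_symm hy (ball_subset_closedBall (haW k)))
        · exact hua j k hy
  choose A D hA hD hAD hun hAc hLD using hsepk
  have hpA : ∀ k, p ∉ A k := fun k hk =>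
    (Set.disjoint_left.mp (hAD k)) hk (hLD k ⟨Or.inr (Or.inl rfl), hpW⟩)
  have huA : ∀ j k, u j ∉ A k := fun j k hk =>
    (Set.disjoint_left.mp (hAD k)) hk
      (hLD k ⟨Or.inr (Or.inr ⟨j, rfl⟩), ball_subset_closedBall (huW j)⟩)
  have hAW : ∀ k, A k ⊆ W := fun k y hy => hun k ▸ Or.inl hy
  have hAth : ∀ k, ∀ y ∈ A k, ∃ x ∈ connectedComponentIn W (a k), dist y x < δ k := by
    intro k y hy
    rw [← mem_thickening_iff]
    by_contra hcon
    exact (Set.disjoint_left.mp (hAD k)) hy (hLD k ⟨Or.inl hcon, hAW k hy⟩)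
  have haA : ∀ k, a k ∈ A k := fun k =>
    hAc k (mem_connectedComponentIn (ball_subset_closedBall (haW k)))
  have hAcomp : ∀ k, ∀ v ∈ A k, connectedComponentIn W v ⊆ A k := by
    intro k v hv
    apply subset_of_preconnected isPreconnected_connectedComponentIn (hA k) (hD k) (hAD k)
    · rw [hun k]; exact connectedComponentIn_subset W v
    · exact ⟨v, mem_connectedComponentIn (hAW k hv), hv⟩
  have hccmono : ∀ i v, connectedComponentIn (closedBall p (rad r i)) v ⊆
      connectedComponentIn W v := fun i v =>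
    connectedComponentIn_mono v (closedBall_subset_closedBall (rad_le hr i))
  -- the open sets `V k`
  have hVk : ∀ k, ∃ V : Set X, V ⊆ A k ∧ IsOpen V ∧ a k ∈ V ∧ ∀ i, a k ∈ ball p (rad r i) →
      ∀ v ∈ V, v ∈ closedBall p (rad r i) ∧
        ∀ y ∈ connectedComponentIn (closedBall p (rad r i)) v,
          ∃ x ∈ connectedComponentIn (closedBall p (rad r i)) (a k), dist y x < δ k := by
    intro k
    have hpos : 0 < dist (a k) p := dist_pos.mpr (hap k)
    obtain ⟨N, hN⟩ := eventually_atTop.mp ((tendsto_rad r).eventually_lt_const hpos)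
    have h1 : ∀ᶠ v in 𝓝 (a k), v ∈ A k := by
      have haD : a k ∈ (D k)ᶜ := fun h' => (Set.disjoint_left.mp (hAD k)) (haA k) h'
      filter_upwards [isOpen_ball.mem_nhds (haW k), (hD k).isOpen_compl.mem_nhds haD] with v hv hvD
      have : v ∈ A k ∪ D k := by rw [hun k]; exact ball_subset_closedBall hv
      exact this.resolve_right hvD
    have h2 : ∀ᶠ v in 𝓝 (a k), ∀ i ∈ Finset.range N, a k ∈ ball p (rad r i) →
        v ∈ closedBall p (rad r i) ∧ connectedComponentIn (closedBall p (rad r i)) v ⊆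
          thickening (δ k) (connectedComponentIn (closedBall p (rad r i)) (a k)) := by
      rw [Finset.eventually_all]
      intro i _
      by_cases hi : a k ∈ ball p (rad r i)
      · have h3 := eventually_cc_subset (isClosed_closedBall (x := p) (ε := rad r i)).isCompact
          (ball_subset_interior_closedBall hi)
          (isOpen_thickening (δ := δ k)
            (E := connectedComponentIn (closedBall p (rad r i)) (a k)))
          (self_subset_thickening (hδpos k) _)
        filter_upwards [h3] with v hv _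
        exact hv
      · exact Eventually.of_forall fun v hv => absurd hv hi
    obtain ⟨V, hV, hVo, haV⟩ := _root_.mem_nhds_iff.mp (h1.and h2)
    refine ⟨V, fun v hv => (hV hv).1, hVo, haV, ?_⟩
    intro i hi v hv
    have hiN : i < N := by
      by_contra hcon
      have := hN i (not_lt.mp hcon)
      rw [mem_ball] at hi
      linarith
    obtain ⟨h3, h4⟩ := (hV hv).2 i (Finset.mem_range.mpr hiN) hi
    exact ⟨h3, fun y hy => mem_thickening_iff.mp (h4 hy)⟩
  choose V hVA hVo haV hVc using hVk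
  -- `u j` is not in `J 0`
  have huJ : ∀ j, u j ∉ J 0 := by
    intro j hj
    obtain ⟨C, D', hC, hD', hdis, hun', hpC, hLD'⟩ := exists_sep hWc hpW
      (isClosed_singleton : IsClosed {u j}) (Set.disjoint_singleton_right.mpr (huQ j))
    have hpC' : p ∈ C := hpC (mem_connectedComponentIn hpW)
    have hpD' : p ∈ D'ᶜ := fun h' => (Set.disjoint_left.mp hdis) hpC' h'
    have huD' : u j ∈ D' := hLD' ⟨rfl, ball_subset_closedBall (huW j)⟩
    have huC : u j ∈ Cᶜ := fun h' => (Set.disjoint_left.mp hdis) h' huD'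
    obtain ⟨η, hη, hηC⟩ := Metric.isOpen_iff.mp hC.isOpen_compl _ huC
    have e1 : ∀ᶠ k in atTop, a k ∈ D'ᶜ := ha (hD'.isOpen_compl.mem_nhds hpD')
    obtain ⟨k, hk1, hk2⟩ := (e1.and (hlim0 η hη)).exists
    have haC : a k ∈ C := by
      have : a k ∈ C ∪ D' := by rw [hun']; exact ball_subset_closedBall (haW k)
      exact this.resolve_right hk1
    have hcC : connectedComponentIn W (a k) ⊆ C := by
      apply subset_of_preconnected isPreconnected_connectedComponentIn hC hD' hdis
      · rw [hun']; exact connectedComponentIn_subset W _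
      · exact ⟨a k, mem_connectedComponentIn (ball_subset_closedBall (haW k)), haC⟩
    obtain ⟨x, hx, hxu⟩ := hk2.2 (u j) hj
    exact hηC (mem_ball.mpr hxu) (hcC hx)
  have hAconv : ∀ ε > 0, ∀ᶠ k in atTop, ∀ y ∈ A k, ∃ z ∈ J 0, dist y z < ε := by
    intro ε hε
    filter_upwards [hlim0 (ε / 2) (by positivity), hδ.eventually_lt_const (half_pos hε)] with k hk
      hk' y hy
    obtain ⟨x, hx, hyx⟩ := hAth k y hy
    obtain ⟨z, hz, hxz⟩ := hk.1 x hx
    refine ⟨z, hz, ?_⟩
    calc dist y z ≤ dist y x + dist x z := dist_triangle _ _ _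
      _ < ε / 2 + ε / 2 := add_lt_add (hyx.trans hk') hxz
      _ = ε := by ring
  have hJsub : ∀ i, J i ⊆ J 0 := by
    intro i y hy
    rw [← (hJcl 0).closure_eq, Metric.mem_closure_iff]
    intro η hη
    obtain ⟨k, hk1, hk2⟩ := ((hlim i (η / 2) (half_pos hη)).and
      (hlim0 (η / 2) (half_pos hη))).exists
    obtain ⟨x, hx, hxy⟩ := hk1.2 y hy
    obtain ⟨z, hz, hxz⟩ := hk2.1 x (hccmono i _ hx)
    refine ⟨z, hz, ?_⟩
    calc dist y z ≤ dist y x + dist x z := dist_triangle _ _ _
      _ < η / 2 + η / 2 := by rw [dist_comm y x]; exact add_lt_add hxy hxz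
      _ = η := by ring
  refine ⟨(⋃ k, A k) ∪ (J 0 \ {p}), ⋃ k, V k, a, u, ?_, ?_, isOpen_iUnion hVo, ?_, ?_, ha, ?_,
    hup, hu, ?_⟩
  · rintro (hp | hp)
    · obtain ⟨k, hk⟩ := mem_iUnion.mp hp
      exact hpA k hk
    · exact hp.2 rfl
  · have e : insert p ((⋃ k, A k) ∪ (J 0 \ {p})) = ((⋃ k, A k) ∪ J 0) ∪ {p} := by
      ext y
      by_cases hy : y = p
      · simp [hy]
      · simp [hy]
    rw [e]
    exact (closed_aux hA (hJcl 0) hAconv).union isClosed_singleton
  · exact (iUnion_mono hVA).trans subset_union_left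
  · intro k
    exact mem_iUnion.mpr ⟨k, haV k⟩
  · rintro j (hj | hj)
    · obtain ⟨k, hk⟩ := mem_iUnion.mp hj
      exact huA j k hk
    · exact huJ j hj.1
  · intro g hg ε hε hsep hf1 hf2
    obtain ⟨i, hi⟩ := ((tendsto_rad r).eventually_lt_const hε).exists
    have haball : ∀ᶠ k in atTop, a k ∈ ball p (rad r i) := ha (ball_mem_nhds p (rad_pos hr i))
    have hJF : ∀ y ∈ J i, y ≠ p → y ∈ (⋃ k, A k) ∪ (J 0 \ {p}) := fun y hy hyp =>
      Or.inr ⟨hJsub i hy, hyp⟩
    have hAF : ∀ k, A k ⊆ (⋃ k, A k) ∪ (J 0 \ {p}) := fun k =>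
      (subset_iUnion A k).trans subset_union_left
    have hcomp : ∀ k, ∀ v ∈ A k, connectedComponentIn (closedBall p (rad r i)) v ⊆ A k :=
      fun k v hv => (hccmono i v).trans (hAcomp k v hv)
    have hVev : ∀ᶠ k in atTop, ∀ v ∈ V k, v ∈ closedBall p (rad r i) ∧
      ∀ y ∈ connectedComponentIn (closedBall p (rad r i)) v,
        ∃ x ∈ connectedComponentIn (closedBall p (rad r i)) (a k), dist y x < δ k := by
      filter_upwards [haball] with k hk
      exact hVc k i hk
    have r1 := one_side (rad_pos hr i) (hne i) hδ (hJcl i) hJF hA hpA hVA hAF hcomp haV hVev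
      (hlim i) hg hi hsep (by
        intro ε' hε'
        obtain ⟨y, hy, hy'⟩ := hf1 ε' hε'
        obtain ⟨k, hk⟩ := mem_iUnion.mp hy
        exact ⟨k, y, hk, hy'⟩)
    have r2 := one_side (g := fun x => 1 - g x) (rad_pos hr i) (hne i) hδ (hJcl i) hJF hA hpA
      hVA hAF hcomp haV hVev (hlim i) (continuousOn_const.sub hg) hi (by
        intro y hy hyp
        rcases hsep y hy hyp with h' | h'
        · right; linarith
        · left; linarith) (by
        intro ε' hε'
        obtain ⟨y, hy, hy1, hy2⟩ := hf2 ε' hε'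
        obtain ⟨k, hk⟩ := mem_iUnion.mp hy
        exact ⟨k, y, hk, hy1, by linarith⟩)
    obtain ⟨k, hk1, hk2⟩ := (r1.and r2).exists
    linarith

end Pool.Agent.Y525.Punct
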