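import Mathlib
import Pool.Agent.Y525.Punct.Constr

set_option autoImplicit false

/-!
If the Stone-Cech remainder of `X ∖ {p}` is an indecomposable continuum, then the metric continuum
`X` is connected im kleinen at `p`.
-/

open Set Topology Filter Metric

namespace Pool.Agent.Y525.Punct

universe u

/-- The Stone-Cech remainder `β(Y) ∖ Y` of a space `Y`. -/
def remainder (Y : Type u) [TopologicalSpace Y] : Set (StoneCech Y) :=
  (range (stoneCechUnit : Y → StoneCech Y))ᶜ

section General

variable {Y : Type u} [TopologicalSpace Y]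

lemma exists_ext (f : C(Y, ℝ)) (hf : ∀ y, f y ∈ Icc (0 : ℝ) 1) :
    ∃ g : StoneCech Y → ℝ, Continuous g ∧ ∀ y, g (stoneCechUnit y) = f y := by
  have hc : Continuous (fun y => (⟨f y, hf y⟩ : Icc (0 : ℝ) 1)) := by fun_prop
  refine ⟨fun z => ((stoneCechExtend hc z : Icc (0 : ℝ) 1) : ℝ), continuous_subtype_val.comp
    (continuous_stoneCechExtend hc), fun y => ?_⟩
  simp only [stoneCechExtend_stoneCechUnit]

lemma disjoint_closures [NormalSpace Y] {A B : Set Y} (hA : IsClosed A) (hB : IsClosed B)
    (hAB : Disjoint A B) : Disjoint (closure ((stoneCechUnit : Y → StoneCech Y) '' A))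
      (closure ((stoneCechUnit : Y → StoneCech Y) '' B)) := by
  obtain ⟨f, hfA, hfB, hf⟩ := exists_continuous_zero_one_of_isClosed hA hB hAB
  obtain ⟨g, hg, hgf⟩ := exists_ext f hf
  rw [Set.disjoint_left]
  intro z hz hz'
  have h1 : z ∈ g ⁻¹' {0} := by
    refine closure_minimal ?_ (isClosed_singleton.preimage hg) hz
    rintro _ ⟨y, hy, rfl⟩
    simp only [mem_preimage, hgf, mem_singleton_iff]
    exact hfA hy
  have h2 : z ∈ g ⁻¹' {1} := by
    refine closure_minimal ?_ (isClosed_singleton.preimage hg) hz'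
    rintro _ ⟨y, hy, rfl⟩
    simp only [mem_preimage, hgf, mem_singleton_iff]
    exact hfB hy
  rw [mem_preimage, mem_singleton_iff] at h1 h2
  rw [h1] at h2
  exact zero_ne_one h2

lemma isCompact_of_closure_subset [T35Space Y] {A : Set Y} (hA : IsClosed A)
    (h : closure ((stoneCechUnit : Y → StoneCech Y) '' A) ⊆ range stoneCechUnit) :
    IsCompact A := by
  have hemb : IsEmbedding (stoneCechUnit : Y → StoneCech Y) := isDenseEmbedding_stoneCechUnit.isEmbedding
  rw [hemb.isCompact_iff]
  have h1 : closure ((stoneCechUnit : Y → StoneCech Y) '' A) = stoneCechUnit '' A := by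
    apply Subset.antisymm _ subset_closure
    intro z hz
    obtain ⟨y, rfl⟩ := h hz
    have : y ∈ closure A := by
      rw [hemb.isInducing.closure_eq_preimage_closure_image]
      exact hz
    rw [hA.closure_eq] at this
    exact mem_image_of_mem _ this
  rw [← h1]
  exact isClosed_closure.isCompact

end General

section Punctured

variable {X : Type u} [MetricSpace X] [CompactSpace X] {p : X}

omit [CompactSpace X] in
lemma isClosed_range_seq {s : ℕ → {x : X // x ≠ p}}
    (hs : Tendsto (fun k => (s k : X)) atTop (𝓝 p)) : IsClosed (range s) := by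
  have h1 : IsClosed (insert p (range fun k => (s k : X))) := hs.isCompact_insert_range.isClosed
  have h2 : range s = Subtype.val ⁻¹' (insert p (range fun k => (s k : X))) := by
    ext y
    constructor
    · rintro ⟨k, rfl⟩
      exact Or.inr ⟨k, rfl⟩
    · rintro (h | ⟨k, hk⟩)
      · exact absurd h y.2
      · exact ⟨k, Subtype.ext hk⟩
  rw [h2]
  exact h1.preimage continuous_subtype_val

omit [CompactSpace X] in
lemma exists_limit_point {s : ℕ → {x : X // x ≠ p}}
    (hs : Tendsto (fun k => (s k : X)) atTop (𝓝 p)) :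
    ∃ z ∈ closure ((stoneCechUnit : {x : X // x ≠ p} → _) '' range s),
      z ∈ remainder {x : X // x ≠ p} := by
  by_contra hcon
  push Not at hcon
  have h1 : IsCompact (range s) := by
    apply isCompact_of_closure_subset (isClosed_range_seq hs)
    intro z hz
    by_contra hz'
    exact hcon z hz hz'
  have h2 : IsClosed ((Subtype.val : {x : X // x ≠ p} → X) '' range s) :=
    (h1.image continuous_subtype_val).isClosed
  have h3 : p ∈ (Subtype.val : {x : X // x ≠ p} → X) '' range s := by
    refine h2.mem_of_tendsto hs (Eventually.of_forall fun k => ?_)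
    exact ⟨s k, ⟨k, rfl⟩, rfl⟩
  obtain ⟨y, -, hy⟩ := h3
  exact y.2 hy

lemma isCompact_far {ε : ℝ} (hε : 0 < ε) : IsCompact {y : {x : X // x ≠ p} | ε ≤ dist (y : X) p} := by
  rw [IsEmbedding.subtypeVal.isCompact_iff]
  have : (Subtype.val '' {y : {x : X // x ≠ p} | ε ≤ dist (y : X) p}) = {x : X | ε ≤ dist x p} := by
    ext x
    constructor
    · rintro ⟨y, hy, rfl⟩
      exact hy
    · intro hx
      refine ⟨⟨x, ?_⟩, hx, rfl⟩
      rintro rfl
      rw [mem_ofPred_eq, dist_self] at hx
      exact not_lt.mpr hx hε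
  rw [this]
  exact (isClosed_le continuous_const (continuous_id.dist continuous_const)).isCompact

theorem cik_of_indecomposable [ConnectedSpace X]
    (hind : IsIndecomposable (remainder {x : X // x ≠ p})) : IsCIK p := by
  by_contra hcik
  obtain ⟨F, V, a, u, hpF, hF, hV, hVF, haV, ha, huF, hup, hu, hprop⟩ :=
    metric_construction hcik
  set Y := {x : X // x ≠ p} with hY
  set i : Y → StoneCech Y := stoneCechUnit with hi
  set Z := remainder Y with hZ
  have hZcl : IsClosed Z := hind.1.1.isClosed
  have hcont : Continuous i := continuous_stoneCechUnit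
  -- the sets in `Y`
  let FY : Set Y := Subtype.val ⁻¹' F
  let VY : Set Y := Subtype.val ⁻¹' V
  have hFY : IsClosed FY := by
    have : FY = Subtype.val ⁻¹' (insert p F) := by
      ext y
      constructor
      · exact fun h => Or.inr h
      · rintro (h | h)
        · exact absurd h y.2
        · exact h
    rw [this]
    exact hF.preimage continuous_subtype_val
  have hVY : IsOpen VY := hV.preimage continuous_subtype_val
  have hVFY : VY ⊆ FY := fun y hy => hVF hy
  have hap : ∀ k, a k ≠ p := fun k h => hpF (h ▸ hVF (haV k))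
  let aY : ℕ → Y := fun k => ⟨a k, hap k⟩
  let uY : ℕ → Y := fun k => ⟨u k, hup k⟩
  obtain ⟨z0, hz0, hz0Z⟩ := exists_limit_point (s := aY) ha
  obtain ⟨z1, hz1, hz1Z⟩ := exists_limit_point (s := uY) hu
  -- the open set `O`
  have hdis : Disjoint VYᶜ (range aY) := by
    rw [Set.disjoint_left]
    rintro y hy ⟨k, rfl⟩
    exact hy (haV k)
  obtain ⟨f, hf0, hf1, hf⟩ := exists_continuous_zero_one_of_isClosed hVY.isClosed_compl
    (isClosed_range_seq (s := aY) ha) hdis
  obtain ⟨fe, hfe, hfef⟩ := exists_ext f hf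
  set O : Set (StoneCech Y) := {z | 1 / 2 < fe z} with hO
  have hOo : IsOpen O := isOpen_lt continuous_const hfe
  have hOV : O ⊆ closure (i '' VY) := by
    intro z hz
    rw [_root_.mem_closure_iff]
    intro N hN hzN
    obtain ⟨y, hy⟩ := denseRange_stoneCechUnit.exists_mem_open (hN.inter hOo) ⟨z, hzN, hz⟩
    refine ⟨i y, hy.1, y, ?_, rfl⟩
    by_contra hyV
    have h1 : f y = 0 := hf0 hyV
    have h2 : 1 / 2 < fe (stoneCechUnit y) := hy.2
    rw [hfef, h1] at h2
    norm_num at h2
  have hz0O : z0 ∈ O := by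
    have h1 : z0 ∈ fe ⁻¹' {1} := by
      refine closure_minimal ?_ (isClosed_singleton.preimage hfe) hz0
      rintro _ ⟨y, hy, rfl⟩
      simp only [mem_preimage, hfef, mem_singleton_iff]
      exact hf1 hy
    rw [mem_preimage, mem_singleton_iff] at h1
    rw [hO, mem_ofPred_eq, h1]
    norm_num
  -- the component
  have hstar : IsCompact (closure (i '' FY) ∩ Z) := (isClosed_closure.inter hZcl).isCompact
  have hVFcl : closure (i '' VY) ⊆ closure (i '' FY) := closure_mono (image_mono hVFY)
  have hz0s : z0 ∈ closure (i '' FY) ∩ Z := ⟨hVFcl (hOV hz0O), hz0Z⟩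
  set K := connectedComponentIn (closure (i '' FY) ∩ Z) z0 with hK
  have hKs : K ⊆ closure (i '' FY) ∩ Z := connectedComponentIn_subset _ _
  have hKcont : IsSubcontinuum K :=
    ⟨(isClosed_cc hstar.isClosed z0).isCompact, isConnected_connectedComponentIn_iff.mpr hz0s⟩
  have hOK : O ∩ Z ⊆ K := by
    rintro z ⟨hzO, hzZ⟩
    by_contra hzK
    obtain ⟨C, D, hC, hD, hCD, hun, hKC, hLD⟩ := exists_sep hstar hz0s
      (isClosed_singleton : IsClosed {z}) (Set.disjoint_singleton_right.mpr hzK)
    have hz0C : z0 ∈ C := hKC (mem_connectedComponentIn hz0s)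
    have hzD : z ∈ D := hLD ⟨rfl, hVFcl (hOV hzO), hzZ⟩
    obtain ⟨h, hh0, hh1, -⟩ := exists_continuous_zero_one_of_isClosed hC hD hCD
    classical
    let g : X → ℝ := fun x => if hx : x ≠ p then h (i ⟨x, hx⟩) else 0
    have hgi : ∀ y : Y, g y = h (i y) := by
      intro y
      exact (dif_pos y.2 : g y = h (i ⟨y.1, y.2⟩))
    have hg : ContinuousOn g {p}ᶜ := by
      rw [continuousOn_iff_continuous_domRestrict]
      have h1 : ({p}ᶜ : Set X).domRestrict g =
          fun y : ({p}ᶜ : Set X) => h (i (⟨y.1, y.2⟩ : Y)) := by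
        funext y
        exact hgi ⟨y.1, y.2⟩
      rw [h1]
      have h2 : Continuous (fun y : ({p}ᶜ : Set X) => (⟨y.1, y.2⟩ : Y)) :=
        Continuous.subtype_mk continuous_subtype_val _
      exact h.continuous.comp (hcont.comp h2)
    -- the set where `h` is undecided is compact
    let R : Set Y := FY ∩ {y | 1 / 3 ≤ h (i y) ∧ h (i y) ≤ 2 / 3}
    have hR : IsClosed R := by
      refine hFY.inter ?_
      exact (isClosed_le continuous_const (h.continuous.comp hcont)).inter
        (isClosed_le (h.continuous.comp hcont) continuous_const)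
    have hRc : IsCompact R := by
      apply isCompact_of_closure_subset hR
      intro w hw
      by_contra hwr
      have hw1 : w ∈ closure (i '' FY) := closure_mono (image_mono inter_subset_left) hw
      have hw2 : w ∈ {w | 1 / 3 ≤ h w ∧ h w ≤ 2 / 3} := by
        refine closure_minimal ?_ ?_ hw
        · rintro _ ⟨y, hy, rfl⟩
          exact hy.2
        · exact (isClosed_le continuous_const h.continuous).inter
            (isClosed_le h.continuous continuous_const)
      have hw3 : w ∈ C ∪ D := by
        rw [hun]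
        exact ⟨hw1, hwr⟩
      rcases hw3 with hw3 | hw3
      · have : h w = 0 := hh0 hw3
        rw [mem_ofPred_eq, this] at hw2
        norm_num at hw2
      · have : h w = 1 := hh1 hw3
        rw [mem_ofPred_eq, this] at hw2
        norm_num at hw2
    have hRX : IsClosed ((Subtype.val : Y → X) '' R) :=
      (hRc.image continuous_subtype_val).isClosed
    have hpR : p ∈ ((Subtype.val : Y → X) '' R)ᶜ := by
      rintro ⟨y, -, hy⟩
      exact y.2 hy
    obtain ⟨ε, hε, hball⟩ := Metric.isOpen_iff.mp hRX.isOpen_compl p hpR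
    have hfreq : ∀ (N : Set (StoneCech Y)), IsOpen N → ∀ w ∈ N, w ∈ O → w ∈ Z →
        ∀ ε' > 0, ∃ y : Y, y ∈ VY ∧ dist (y : X) p < ε' ∧ i y ∈ N := by
      intro N hN w hwN hwO hwZ ε' hε'
      have hc : IsClosed (i '' {y : Y | ε' ≤ dist (y : X) p}) :=
        ((isCompact_far hε').image hcont).isClosed
      have hw : w ∈ (i '' {y : Y | ε' ≤ dist (y : X) p})ᶜ := by
        rintro ⟨y, -, hy⟩
        exact hwZ ⟨y, hy⟩
      obtain ⟨_, ⟨hyN, hyc⟩, y, hyV, rfl⟩ := _root_.mem_closure_iff.mp (hOV hwO) _
        (hN.inter hc.isOpen_compl) ⟨hwN, hw⟩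
      refine ⟨y, hyV, ?_, hyN⟩
      by_contra hcon
      exact hyc ⟨y, not_lt.mp hcon, rfl⟩
    refine hprop g hg ε hε ?_ ?_ ?_
    · intro y hy hyp
      have hyne : y ≠ p := fun h' => hpF (h' ▸ hy)
      by_contra hcon
      push Not at hcon
      apply hball (mem_ball.mpr hyp)
      refine ⟨⟨y, hyne⟩, ⟨hy, ?_⟩, rfl⟩
      have := hgi ⟨y, hyne⟩
      rw [mem_ofPred_eq, ← this]
      exact hcon
    · intro ε' hε'
      obtain ⟨y, hyV, hyd, hyN⟩ := hfreq {w | h w < 1 / 3} (isOpen_lt h.continuous
        continuous_const) z0 (by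
          have : h z0 = 0 := hh0 hz0C
          rw [mem_ofPred_eq, this]; norm_num) hz0O hz0Z ε' hε'
      exact ⟨y, hyV, hyd, by rw [hgi]; exact hyN⟩
    · intro ε' hε'
      obtain ⟨y, hyV, hyd, hyN⟩ := hfreq {w | 2 / 3 < h w} (isOpen_lt continuous_const
        h.continuous) z (by
          have : h z = 1 := hh1 hzD
          rw [mem_ofPred_eq, this]; norm_num) hzO hzZ ε' hε'
      exact ⟨y, hyV, hyd, by rw [hgi]; exact hyN⟩
  have hKZ : K = Z := eq_of_interior hind hKcont (hKs.trans inter_subset_right) hOo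
    ⟨z0, hz0O, hz0Z⟩ hOK
  have hdis2 : Disjoint (range uY) FY := by
    rw [Set.disjoint_left]
    rintro y ⟨k, rfl⟩ hy
    exact huF k hy
  have hz1K : z1 ∈ K := by rw [hKZ]; exact hz1Z
  exact (Set.disjoint_left.mp (disjoint_closures (isClosed_range_seq (s := uY) hu) hFY hdis2))
    hz1 (hKs hz1K).1

end Punctured

end Pool.Agent.Y525.Punct
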